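import Pool.Agent.L7h3.SC.Stm

set_option autoImplicit false

namespace Pool.Agent.L7h61.SC

open Pool.Agent.L7h3.SC

theorem s_FIN : S_FIN := by
  intro E T A hA hT hfin
  classical
  rcases T.eq_empty_or_nonempty with h0 | ⟨p₀, hp₀⟩
  · rw [h0]; exact Set.countable_empty
  have hcov : T ⊆ ⋃ u : Finset ℕ, {p | p ∈ T ∧ ∀ j, j ∉ u → p j = p₀ j} := by
    intro p hp
    rw [Set.mem_iUnion]
    refine ⟨(hfin p hp p₀ hp₀).toFinset, hp, fun j hj => ?_⟩
    by_contra hne
    apply hj
    rw [Set.Finite.mem_toFinset]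
    exact hne
  refine Set.Countable.mono hcov (Set.countable_iUnion fun u => ?_)
  have hc : {f : u → E | ∀ j : u, f j ∈ A j}.Countable :=
    Set.countable_pi (fun j : u => hA j)
  refine Set.MapsTo.countable_of_injOn (f := fun p : ℕ → E => fun j : u => p j) ?_ ?_ hc
  · intro p hp j
    exact hT p hp.1 j
  · intro p hp p' hp' h
    funext j
    by_cases hj : j ∈ u
    · exact congrFun h ⟨j, hj⟩
    · rw [hp.2 j hj, hp'.2 j hj]

theorem beyond {E : Type} [NormedAddCommGroup E] [NormedSpace ℝ E] [StrictConvexSpace ℝ E]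
    (a b c c' : E) (hab : a ≠ b) (h : Wbtw ℝ a b c) (h1 : dist c' a = dist c a)
    (h2 : dist c' b = dist c b) : c' = c := by
  obtain ⟨r, ⟨hr0, hr1⟩, hr⟩ := h
  have e1 : dist a b = r * dist a c := by
    rw [← hr, dist_left_lineMap, Real.norm_of_nonneg hr0]
  have e2 : dist b c = (1 - r) * dist a c := by
    rw [← hr, dist_lineMap_right, Real.norm_of_nonneg (by linarith)]
  have h1' : dist a c' = dist a c := by rw [dist_comm a c', dist_comm a c]; exact h1
  have h2' : dist b c' = dist b c := by rw [dist_comm b c', dist_comm b c]; exact h2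
  have e3 : b = AffineMap.lineMap a c' r := by
    apply eq_lineMap_of_dist_eq_mul_of_dist_eq_mul
    · rw [h1', e1]
    · rw [h1', h2', e2]
  have hr' : r ≠ 0 := by
    rintro rfl
    apply hab
    rw [← hr]
    simp
  have e4 : AffineMap.lineMap a c r = (AffineMap.lineMap a c' r : E) := by rw [hr, ← e3]
  rw [AffineMap.lineMap_apply_module', AffineMap.lineMap_apply_module'] at e4
  have e5 : r • (c - a) = r • (c' - a) := add_right_cancel e4
  have e6 := smul_right_injective E hr' e5
  have e7 : c - a = c' - a := e6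
  have e8 := sub_left_inj.1 e7
  exact e8.symm

theorem uniq {E : Type} [NormedAddCommGroup E] [NormedSpace ℝ E] [StrictConvexSpace ℝ E]
    (a b c c' : E) (hab : a ≠ b) (h : Collinear ℝ {a, b, c}) (h1 : dist c' a = dist c a)
    (h2 : dist c' b = dist c b) : c' = c := by
  rcases h.wbtw_or_wbtw_or_wbtw with h | h | h
  · exact beyond a b c c' hab h h1 h2
  · obtain ⟨r, ⟨hr0, hr1⟩, hr⟩ := h
    have e1 : dist b c = r * dist b a := by
      rw [← hr, dist_left_lineMap, Real.norm_of_nonneg hr0]
    have e2 : dist c a = (1 - r) * dist b a := by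
      rw [← hr, dist_lineMap_right, Real.norm_of_nonneg (by linarith)]
    have e3 : c' = AffineMap.lineMap b a r := by
      apply eq_lineMap_of_dist_eq_mul_of_dist_eq_mul
      · rw [dist_comm b c', h2, dist_comm c b, e1]
      · rw [h1, e2]
    rw [e3, hr]
  · exact beyond b a c c' hab.symm h.symm h2 h1

theorem s_UNIQ : S_UNIQ := by
  intro E _ _ _ a b c c' hab h h1 h2
  exact uniq a b c c' hab h h1 h2

end Pool.Agent.L7h61.SC
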